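import Pool.Agent.Helper80.AD.GoalsB

/-!
# Project AD (MP_6af536_nt), packet APX: the approximate data of a field
-/

set_option autoImplicit false

open MvPolynomial Filter Topology

noncomputable section

namespace Pool.Agent.Helper94.AD

open Pool.Agent.Helper80.HD Pool.Agent.Helper80.AD

/-! ## Squares of the coordinates -/

/-- If the squares of the generators are in `L`, then algebraic over `L'` implies algebraic
over `L`. -/
theorem alg_of_sq {K : Type} [Field K] [Algebra K ℂ] (S : Set ℂ) (L : IntermediateField K ℂ)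
    (hS : ∀ c ∈ S, c ^ 2 ∈ L) (a : ℂ) (ha : IsAlgebraic (IntermediateField.adjoin K S) a) :
    IsAlgebraic L a := by
  set A : IntermediateField L ℂ := algebraicClosure L ℂ with hA
  have hle : IntermediateField.adjoin K S ≤ A.restrictScalars K := by
    rw [IntermediateField.adjoin_le_iff]
    intro c hc
    show c ∈ A
    rw [hA, mem_algebraicClosure_iff]
    have h1 : IsAlgebraic L (c ^ 2) := isAlgebraic_algebraMap (⟨c ^ 2, hS c hc⟩ : L)
    exact h1.of_pow (by norm_num)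
  have h2 : IsAlgebraic (A.restrictScalars K).toSubalgebra a :=
    IsAlgebraic.tower_top_of_subalgebra_le (A := (IntermediateField.adjoin K S).toSubalgebra) hle ha
  have h3 : IsAlgebraic A a := h2
  have : Algebra.IsAlgebraic L A := by
    rw [hA]
    infer_instance
  exact h3.restrictScalars L

theorem big_sq {K : Type} [Field K] [Algebra K ℂ] {F : IntermediateField K ℂ} {M : ℕ}
    (y : Fin (M + 1) → F) (h : Big K F (cv y)) : Big K F (cv (fun j => y j ^ 2)) := by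
  obtain ⟨h0, -, h2⟩ := h
  refine ⟨?_, ?_, ?_⟩
  · intro h
    apply h0
    funext j
    have h3 : ((y j ^ 2 : F) : ℂ) = 0 := congrFun h j
    have h4 : ((y j : F) : ℂ) ^ 2 = 0 := by
      rw [← h3]; simp
    exact pow_eq_zero_iff (two_ne_zero) |>.1 h4
  · unfold ratioField
    rw [IntermediateField.adjoin_le_iff]
    rintro c ⟨i, j, rfl⟩
    exact F.div_mem (y i ^ 2 : F).2 (y j ^ 2 : F).2
  · intro a ha
    refine alg_of_sq {c | ∃ i j, c = cv y i / cv y j} _ ?_ a (h2 a ha)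
    rintro c ⟨i, j, rfl⟩
    refine IntermediateField.subset_adjoin K _ ⟨i, j, ?_⟩
    show (cv y i / cv y j) ^ 2 = ((y i ^ 2 : F) : ℂ) / ((y j ^ 2 : F) : ℂ)
    rw [div_pow]
    simp [cv]

/-- Squaring all coordinates. -/
def sq {K : Type} [Field K] [Algebra K ℂ] {F : IntermediateField K ℂ} {M : ℕ} (b : BV F M) :
    BV F M :=
  ⟨fun j => b.1 j ^ 2, big_sq b.1 b.2.1, by
    obtain ⟨j, hj⟩ := b.2.2
    refine ⟨j, ?_⟩
    have h : b.1 j ^ 2 = 1 := by
      have h1 : b.1 j = 1 := hj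
      rw [h1, one_pow]
    exact h⟩

/-! ## Local heights -/

theorem vn_sq {R : Type} [Field R] {N : ℕ} (w : AbsoluteValue R ℝ) (x : Fin (N + 1) → R)
    (hGNM : S_GNM) : vn w (fun j => x j ^ 2) = vn w x ^ 2 := by
  obtain ⟨h1, ⟨j, hj⟩, -⟩ := hGNM.2.2 R N w x
  obtain ⟨h1', ⟨j', hj'⟩, -⟩ := hGNM.2.2 R N w (fun j => x j ^ 2)
  apply le_antisymm
  · rw [hj', map_pow]
    exact pow_le_pow_left₀ (w.nonneg _) (h1 j') 2
  · rw [hj, ← map_pow]
    exact h1' j

theorem one_le_vn {R : Type} [Field R] {N : ℕ} (w : AbsoluteValue R ℝ) (x : Fin (N + 1) → R)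
    (hGNM : S_GNM) (h : ∃ j, x j = 1) : 1 ≤ vn w x := by
  obtain ⟨j, hj⟩ := h
  have h1 := (hGNM.2.2 R N w x).1 j
  rw [hj, map_one] at h1
  exact h1

section

variable {K : Type} [Field K] [NumberField K] [Algebra K ℂ] {F : IntermediateField K ℂ} {k M : ℕ}

/-- The mixed degree. -/
def DV (F : IntermediateField K ℂ) (y₀ : BV F M) (Z : Fin k → BV F M) : ℝ :=
  (bd F 0 (Fin.cons y₀ Z : Fin (k + 1) → BV F M) : ℝ)

theorem bd_eq (hSYM : S_SYM) (hDEP : S_DEP) (hFG : F.FG) (htr : Algebra.trdeg K F = k)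
    (y₀ : BV F M) (Y : Fin (k + 1) → BV F M) (i : Fin (k + 1)) :
    (bd F i Y : ℝ) = DV F y₀ (fun s => Y (i.succAbove s)) := by
  set Y' : Fin (k + 1) → BV F M := Function.update Y i y₀ with hY'
  have h1 := (hDEP K F k M (fun l => cv (Y l).1) (fun l => cv (Y' l).1) i hFG htr
    (fun l => (Y l).2.1) (fun l => (Y' l).2.1)
    (fun l hl => by rw [hY', Function.update_of_ne hl])).1
  have h2 := (hSYM K F k M (fun l => cv (Y' l).1) (i.cycleRange.symm) hFG htr
    (fun l => (Y' l).2.1)).2 0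
  rw [Fin.cycleRange_symm_zero] at h2
  unfold bd DV bd
  rw [h1, ← h2]
  congr 3
  funext l
  refine Fin.cases ?_ (fun s => ?_) l
  · show cv (Y' (i.cycleRange.symm 0)).1 = _
    rw [Fin.cycleRange_symm_zero, hY', Function.update_self]
    simp
  · show cv (Y' (i.cycleRange.symm s.succ)).1 = _
    rw [Fin.cycleRange_symm_succ, hY', Function.update_of_ne (Fin.succAbove_ne i s)]
    simp

theorem bd_zero_eq (hSYM : S_SYM) (hDEP : S_DEP) (hFG : F.FG) (htr : Algebra.trdeg K F = k)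
    (y₀ y : BV F M) (Z : Fin k → BV F M) :
    (bd F 0 (Fin.cons y Z : Fin (k + 1) → BV F M) : ℝ) = DV F y₀ Z := by
  rw [bd_eq hSYM hDEP hFG htr y₀]
  congr 1

theorem bd_swap (hSYM : S_SYM) (hDEP : S_DEP) (hFG : F.FG) (htr : Algebra.trdeg K F = k)
    (y₀ y : BV F M) (Z : Fin k → BV F M) (l : Fin k) :
    (bd F l.succ (Fin.cons y Z : Fin (k + 1) → BV F M) : ℝ) = DV F y₀ (Function.update Z l y) := by
  have h2 := (hSYM K F k M (fun i => cv ((Fin.cons y Z : Fin (k + 1) → BV F M) i).1)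
    (Equiv.swap 0 l.succ) hFG htr
    (fun i => ((Fin.cons y Z : Fin (k + 1) → BV F M) i).2.1)).2 0
  rw [Equiv.swap_apply_left] at h2
  rw [← bd_zero_eq hSYM hDEP hFG htr y₀ (Z l)]
  unfold bd
  rw [← h2]
  congr 3
  funext i
  show cv ((Fin.cons y Z : Fin (k + 1) → BV F M) (Equiv.swap 0 l.succ i)).1 = _
  congr 2
  refine Fin.cases ?_ (fun s => ?_) i
  · rw [Equiv.swap_apply_left]
    simp
  · by_cases hs : s = l
    · subst hs
      rw [Equiv.swap_apply_right]
      simp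
    · rw [Equiv.swap_apply_of_ne_of_ne (Fin.succ_ne_zero s) (fun h => hs (Fin.succ_injective _ h))]
      simp [Function.update_of_ne hs]

theorem DV_perm (hSYM : S_SYM) (hFG : F.FG) (htr : Algebra.trdeg K F = k)
    (y₀ : BV F M) (σ : Equiv.Perm (Fin k)) (Z : Fin k → BV F M) :
    DV F y₀ (Z ∘ σ) = DV F y₀ Z := by
  have h2 := (hSYM K F k M (fun i => cv ((Fin.cons y₀ Z : Fin (k + 1) → BV F M) i).1)
    (Equiv.Perm.decomposeFin.symm (0, σ)) hFG htr
    (fun i => ((Fin.cons y₀ Z : Fin (k + 1) → BV F M) i).2.1)).2 0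
  rw [Equiv.Perm.decomposeFin_symm_apply_zero] at h2
  unfold DV bd
  rw [← h2]
  congr 3
  funext i
  show _ = cv ((Fin.cons y₀ Z : Fin (k + 1) → BV F M) (Equiv.Perm.decomposeFin.symm (0, σ) i)).1
  congr 2
  refine Fin.cases ?_ (fun s => ?_) i
  · rw [Equiv.Perm.decomposeFin_symm_apply_zero]
    simp
  · rw [Equiv.Perm.decomposeFin_symm_apply_succ, Equiv.swap_self]
    simp

end

theorem apx (hREL : S_REL) (hSYM : S_SYM) (hDEP : S_DEP) (hLHD : S_LHD) (hGNM : S_GNM) : S_APX := by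
  intro K _ _ _ F k M Γ Γ' hne hFG htr hΓ hΓ'
  obtain ⟨y₀⟩ := hne
  have hΓ0 : ∀ v, 0 ≤ Real.log (Γ v) := fun v => Real.log_nonneg (hΓ.1 v)
  have hD1 : ∀ Z : Fin k → BV F M, 1 ≤ DV F y₀ Z := by
    intro Z
    have h := (hDEP K F k M (fun i => cv ((Fin.cons y₀ Z : Fin (k + 1) → BV F M) i).1)
      (fun i => cv ((Fin.cons y₀ Z : Fin (k + 1) → BV F M) i).1) 0 hFG htr
      (fun i => ((Fin.cons y₀ Z : Fin (k + 1) → BV F M) i).2.1)
      (fun i => ((Fin.cons y₀ Z : Fin (k + 1) → BV F M) i).2.1) (fun l _ => rfl)).2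
    unfold DV bd
    exact_mod_cast h
  refine ⟨sq, DV F y₀, ⟨?_, ?_, ?_, ?_, ?_, ?_, ?_, ?_, ?_, ?_⟩, ?_⟩
  · intro b v
    exact Real.log_nonneg (one_le_vn v.1 b.1 hGNM b.2.2)
  · intro v
    unfold cst
    split_ifs
    · exact hΓ0 _
    · exact hΓ'
  · unfold gt
    refine add_nonneg (mul_nonneg (Nat.cast_nonneg _) hΓ') ?_
    exact finsum_nonneg fun v => hΓ0 _
  · intro b v
    unfold hV
    show Real.log (vn v.1 (fun j => b.1 j ^ 2)) = _
    rw [vn_sq v.1 b.1 hGNM, Real.log_pow]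
    norm_num
  · intro σ Y
    exact (hSYM K F k M (fun i => cv (Y i).1) σ hFG htr (fun i => (Y i).2.1)).1
  · intro σ Z
    exact DV_perm hSYM hFG htr y₀ σ Z
  · intro Y
    exact (hLHD K).2.2.2.2 _ _
  · exact hD1
  · intro m a
    obtain ⟨C, hC, h⟩ := hREL K M k m a
    refine ⟨C, hC, fun b t p hp hpv z => ?_⟩
    obtain ⟨g, hg, hpg⟩ := hp
    have h1 := (h F Γ Γ' t z b g hFG htr hΓ hΓ' hg (fun v => by
      rw [← hpg v]; exact hpv v)).1
    rw [bd_zero_eq hSYM hDEP hFG htr y₀] at h1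
    simp only [bd_eq hSYM hDEP hFG htr y₀] at h1
    exact h1
  · intro m a b t p hp hpv z l
    obtain ⟨C, hC, h⟩ := hREL K M k m a
    obtain ⟨g, hg, hpg⟩ := hp
    have h1 := (h F Γ Γ' t z b g hFG htr hΓ hΓ' hg (fun v => by
      rw [← hpg v]; exact hpv v)).2 l
    simp only [bd_swap hSYM hDEP hFG htr y₀] at h1
    exact h1
  · intro Y i
    exact bd_eq hSYM hDEP hFG htr y₀ Y i

end Pool.Agent.Helper94.AD
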